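import Pool.Agent.N13.PE.Main

/-!
# The gamma values with a given denominator
-/

set_option autoImplicit false

open MeasureTheory Set

namespace Pool.Agent.N13.PE

open Pool.Agent.R352.E (clF mem_clF subset_clF clF_mono clF_le of_pow rat_mem)
open Pool.Agent.R352.T (rpow_mem)

lemma alg_mem {z : ℝ} (h : IsAlgebraic ℚ z) (T : Set ℝ) : z ∈ clF T := mem_clF.2 (h.tower_top _)

lemma sin_mem (q : ℚ) (T : Set ℝ) : Real.sin (Real.pi * q) ∈ clF T := by
  refine alg_mem ?_ T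
  rw [mul_comm]
  exact (IsFractionRing.isAlgebraic_iff ℤ ℚ ℝ).1 (Real.isAlgebraic_sin_rat_mul_pi q)

lemma refl_mem {a : ℚ} (ha : 0 < a) {T : Set ℝ} (hpi : Real.pi ∈ clF T) (hG : Real.Gamma a ∈ clF T) :
    Real.Gamma (1 - a) ∈ clF T := by
  have ha' : (0 : ℝ) < a := by exact_mod_cast ha
  have h1 := Real.Gamma_mul_Gamma_one_sub (a : ℝ)
  have h2 : Real.Gamma (a : ℝ) ≠ 0 := (Real.Gamma_pos_of_pos ha').ne'
  have h3 : Real.Gamma (1 - a) = Real.pi / Real.sin (Real.pi * a) / Real.Gamma a := by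
    rw [← h1]
    field_simp
  rw [h3]
  exact (clF T).div_mem ((clF T).div_mem hpi (sin_mem a T)) hG

/-- the fractions `k / N`, `1 ≤ k < N` -/
def fracs (N : ℕ) : Set ℚ := {a | ∃ k : ℕ, 0 < k ∧ k < N ∧ a = k / N}

lemma fracs_pos {N : ℕ} {a : ℚ} (h : a ∈ fracs N) : 0 < a ∧ a < 1 := by
  obtain ⟨k, h0, h1, rfl⟩ := h
  have hN : (0 : ℚ) < N := by
    have : 0 < N := by omega
    exact_mod_cast this
  have hk : (0 : ℚ) < k := by exact_mod_cast h0
  refine ⟨by positivity, ?_⟩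
  rw [div_lt_one hN]
  exact_mod_cast h1

lemma fracs_sub {N : ℕ} {a : ℚ} (h : a ∈ fracs N) : 1 - a ∈ fracs N := by
  obtain ⟨k, h0, h1, rfl⟩ := h
  refine ⟨N - k, by omega, by omega, ?_⟩
  have hN : (N : ℚ) ≠ 0 := by
    have : N ≠ 0 := by omega
    exact_mod_cast this
  rw [Nat.cast_sub h1.le]
  field_simp

/-- from the gamma values to the hypothesis of the general theorem -/
lemma GH_of {r : ℕ} {y : Fin r → ℝ} {N : ℕ}
    (h : ∀ a ∈ fracs N, Real.Gamma (a : ℝ) ∈ clF ({Real.exp 1} ∪ range y)) : GH y (fracs N) := by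
  intro a ha
  refine ⟨fracs_pos ha, h a ha, ?_⟩
  have := h _ (fracs_sub ha)
  push_cast at this
  exact this

/-- all the gamma values with denominator `N` from the first half -/
lemma fracs_mem {N : ℕ} {T : Set ℝ} (hpi : Real.pi ∈ clF T)
    (h : ∀ k : ℕ, 0 < k → 2 * k < N → Real.Gamma ((k : ℝ) / N) ∈ clF T) :
    ∀ a ∈ fracs N, Real.Gamma (a : ℝ) ∈ clF T := by
  rintro a ⟨k, h0, h1, rfl⟩
  have hN : (N : ℝ) ≠ 0 := by
    have : N ≠ 0 := by omega
    exact_mod_cast this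
  rcases lt_trichotomy (2 * k) N with hlt | heq | hgt
  · have := h k h0 hlt
    push_cast
    exact this
  · have e : (((k : ℚ) / (N : ℚ) : ℚ) : ℝ) = 1 / 2 := by
      push_cast
      rw [← heq]
      have hk : (k : ℝ) ≠ 0 := by exact_mod_cast h0.ne'
      push_cast
      field_simp
    rw [e]
    exact Gamma_half_mem hpi
  · have h2 := h (N - k) (by omega) (by omega)
    have e1 : (((N - k : ℕ) : ℝ) / N) = (((((N - k : ℕ) : ℚ)) / N : ℚ) : ℝ) := by push_cast; ring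
    rw [e1] at h2
    have hpos : (0 : ℚ) < ((N - k : ℕ) : ℚ) / N := by
      have h3 : (0 : ℚ) < ((N - k : ℕ) : ℚ) := by exact_mod_cast (by omega : 0 < N - k)
      have h4 : (0 : ℚ) < N := by exact_mod_cast (by omega : 0 < N)
      positivity
    have h3 := refl_mem hpos hpi h2
    have e2 : (1 : ℝ) - ((((N - k : ℕ) : ℚ) / N : ℚ) : ℝ) = (((k : ℚ) / (N : ℚ) : ℚ) : ℝ) := by
      push_cast [Nat.cast_sub h1.le]
      field_simp
      ring
    rw [← e2]
    exact h3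

lemma two_rpow_mem (b : ℚ) (T : Set ℝ) : (2 : ℝ) ^ (b : ℝ) ∈ clF T := by
  have := rpow_mem (T := T) (x := 2) (by norm_num) b
  push_cast at this
  exact this

/-- denominator six -/
lemma six_mem {T : Set ℝ} (hpi : Real.pi ∈ clF T) (h3 : Real.Gamma (1 / 3) ∈ clF T) :
    ∀ a ∈ fracs 6, Real.Gamma (a : ℝ) ∈ clF T := by
  have h13 : Real.Gamma (((1 / 3 : ℚ) : ℚ) : ℝ) ∈ clF T := by push_cast; exact h3
  have h23 : Real.Gamma (2 / 3) ∈ clF T := by
    have := refl_mem (a := 1 / 3) (by norm_num) hpi h13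
    push_cast at this
    have e : (1 : ℝ) - 1 / 3 = 2 / 3 := by norm_num
    rwa [e] at this
  have h56 : Real.Gamma (5 / 6) ∈ clF T := by
    have hd := Real.Gamma_mul_Gamma_add_half (1 / 3)
    have e1 : (1 : ℝ) / 3 + 1 / 2 = 5 / 6 := by norm_num
    have e2 : (2 : ℝ) * (1 / 3) = 2 / 3 := by norm_num
    rw [e1, e2] at hd
    have h0 : Real.Gamma (1 / 3) ≠ 0 := (Real.Gamma_pos_of_pos (by norm_num)).ne'
    have e3 : Real.Gamma (5 / 6) = Real.Gamma (2 / 3) * 2 ^ ((1 : ℝ) - 2 / 3) * √Real.pi / Real.Gamma (1 / 3) := by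
      rw [← hd]
      field_simp
    rw [e3]
    refine (clF T).div_mem ((clF T).mul_mem ((clF T).mul_mem h23 ?_) ?_) h3
    · have := two_rpow_mem (1 - 2 / 3) T
      push_cast at this
      exact this
    · exact of_pow (n := 2) (by norm_num) (by rw [Real.sq_sqrt Real.pi_pos.le]; exact hpi)
  have h16 : Real.Gamma (1 / 6) ∈ clF T := by
    have h : Real.Gamma (((5 / 6 : ℚ) : ℚ) : ℝ) ∈ clF T := by push_cast; exact h56
    have := refl_mem (a := 5 / 6) (by norm_num) hpi h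
    push_cast at this
    have e : (1 : ℝ) - 5 / 6 = 1 / 6 := by norm_num
    rwa [e] at this
  refine fracs_mem hpi fun k h0 hk => ?_
  have hk' : k = 1 ∨ k = 2 := by omega
  rcases hk' with rfl | rfl
  · push_cast
    exact h16
  · have e : (((2 : ℕ) : ℝ) / ((6 : ℕ) : ℝ)) = 1 / 3 := by norm_num
    rw [e]
    exact h3

/-- denominator four -/
lemma four_mem {T : Set ℝ} (hpi : Real.pi ∈ clF T) (h4 : Real.Gamma (1 / 4) ∈ clF T) :
    ∀ a ∈ fracs 4, Real.Gamma (a : ℝ) ∈ clF T := by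
  refine fracs_mem hpi fun k h0 hk => ?_
  have hk' : k = 1 := by omega
  subst hk'
  push_cast
  exact h4

/-- `π` and the gamma values `Γ(k / N)`, `1 ≤ k < N / 2` -/
noncomputable def consts (N : ℕ) : Fin ((N + 1) / 2) → ℝ :=
  fun i => if (i : ℕ) = 0 then Real.pi else Real.Gamma ((i : ℕ) / N)

lemma consts_mem {N : ℕ} (hN : 2 ≤ N) (a : ℚ) (ha : a ∈ fracs N) :
    Real.Gamma (a : ℝ) ∈ clF ({Real.exp 1} ∪ range (consts N)) := by
  refine fracs_mem ?_ (fun k h0 hk => ?_) a ha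
  · refine subset_clF _ (Or.inr ⟨⟨0, by omega⟩, ?_⟩)
    simp [consts]
  · refine subset_clF _ (Or.inr ⟨⟨k, by omega⟩, ?_⟩)
    simp only [consts]
    rw [if_neg (by omega)]

end Pool.Agent.N13.PE
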