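import Mathlib

/-!
# The integrals `J a x = ∫_0^∞ e^(-x t) / (t^a (1 + t)) dt`
-/

set_option autoImplicit false

open MeasureTheory Set Filter Topology

namespace Pool.Agent.N13.PE

/-- `J a x = ∫_0^∞ e^(-x t) / (t^a (1 + t)) dt` -/
noncomputable def J (a x : ℝ) : ℝ := ∫ t in Ioi (0 : ℝ), Real.exp (-(x * t)) / (t ^ a * (1 + t))

lemma inner_t {a s : ℝ} (ha1 : a < 1) (hs : 0 < s) :
    ∫ t in Ioi (0 : ℝ), t ^ (-a) * Real.exp (-(s * (1 + t))) = Real.Gamma (1 - a) * (s ^ (a - 1) * Real.exp (-s)) := by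
  have h := Real.integral_rpow_mul_exp_neg_mul_Ioi (a := 1 - a) (r := s) (by linarith) hs
  have h1 : ∀ t : ℝ, t ^ (-a) * Real.exp (-(s * (1 + t))) = Real.exp (-s) * (t ^ (1 - a - 1) * Real.exp (-(s * t))) := by
    intro t
    have e1 : (1 - a - 1 : ℝ) = -a := by ring
    have e2 : Real.exp (-(s * (1 + t))) = Real.exp (-s) * Real.exp (-(s * t)) := by
      rw [← Real.exp_add]; congr 1; ring
    rw [e1, e2]; ring
  simp only [h1]
  rw [integral_const_mul, h, one_div, Real.inv_rpow hs.le, ← Real.rpow_neg hs.le]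
  have e3 : -(1 - a) = a - 1 := by ring
  rw [e3]; ring

lemma inner_t_int {a s : ℝ} (ha1 : a < 1) (hs : 0 < s) :
    IntegrableOn (fun t : ℝ => t ^ (-a) * Real.exp (-(s * (1 + t)))) (Ioi (0 : ℝ)) := by
  have h := integrableOn_rpow_mul_exp_neg_mul_rpow (p := 1) (s := -a) (b := s) (by linarith) one_pos hs
  have h2 := h.const_mul (Real.exp (-s))
  refine IntegrableOn.congr_fun h2 (fun t _ => ?_) measurableSet_Ioi
  have e2 : Real.exp (-(s * (1 + t))) = Real.exp (-s) * Real.exp (-(s * t)) := by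
    rw [← Real.exp_add]; congr 1; ring
  simp only [Real.rpow_one]
  rw [e2, neg_mul]; ring

lemma inner_s {a x t : ℝ} (ht : 0 < t) :
    ∫ s in Ioi x, t ^ (-a) * Real.exp (-(s * (1 + t))) = Real.exp (-x) * (Real.exp (-(x * t)) / (t ^ a * (1 + t))) := by
  have h1 : ∀ s : ℝ, t ^ (-a) * Real.exp (-(s * (1 + t))) = t ^ (-a) * Real.exp (-(1 + t) * s) := by
    intro s; congr 2; ring
  simp only [h1]
  rw [integral_const_mul, integral_exp_mul_Ioi (by linarith : -(1 + t) < 0)]
  have e2 : Real.exp (-(1 + t) * x) = Real.exp (-x) * Real.exp (-(x * t)) := by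
    rw [← Real.exp_add]; congr 1; ring
  rw [e2, Real.rpow_neg ht.le]
  have : (0 : ℝ) < t ^ a := Real.rpow_pos_of_pos ht a
  field_simp

/-- the incomplete gamma integral is integrable -/
lemma gu_int {a x : ℝ} (ha : 0 < a) (hx : 0 ≤ x) : IntegrableOn (fun s : ℝ => s ^ (a - 1) * Real.exp (-s)) (Ioi x) := by
  have h := Real.GammaIntegral_convergent ha
  have h2 : IntegrableOn (fun s : ℝ => s ^ (a - 1) * Real.exp (-s)) (Ioi 0) := by
    refine h.congr_fun (fun s _ => ?_) measurableSet_Ioi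
    ring
  exact h2.mono_set (Ioi_subset_Ioi hx)

/-- the basic identity -/
theorem J_eq {a x : ℝ} (ha : 0 < a) (ha1 : a < 1) (hx : 0 ≤ x) :
    J a x = Real.exp x * (Real.Gamma (1 - a) * ∫ s in Ioi x, s ^ (a - 1) * Real.exp (-s)) := by
  have hmeas : Measurable (Function.uncurry fun (t s : ℝ) => t ^ (-a) * Real.exp (-(s * (1 + t)))) := by
    have h1 : Measurable fun p : ℝ × ℝ => p.1 ^ (-a) := measurable_fst.pow_const _
    have h2 : Measurable fun p : ℝ × ℝ => Real.exp (-(p.2 * (1 + p.1))) := by fun_prop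
    exact h1.mul h2
  have hint : Integrable (Function.uncurry fun (t s : ℝ) => t ^ (-a) * Real.exp (-(s * (1 + t))))
      ((volume.restrict (Ioi (0 : ℝ))).prod (volume.restrict (Ioi x))) := by
    rw [integrable_prod_iff' hmeas.aestronglyMeasurable]
    constructor
    · filter_upwards [ae_restrict_mem measurableSet_Ioi] with s hs
      exact inner_t_int ha1 (lt_of_le_of_lt hx hs)
    · have h3 : IntegrableOn (fun s : ℝ => Real.Gamma (1 - a) * (s ^ (a - 1) * Real.exp (-s))) (Ioi x) :=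
        (gu_int ha hx).const_mul _
      refine IntegrableOn.congr_fun h3 (fun s hs => ?_) measurableSet_Ioi
      have hs0 : 0 < s := lt_of_le_of_lt hx hs
      rw [← inner_t ha1 hs0]
      refine setIntegral_congr_fun measurableSet_Ioi fun t ht => ?_
      have ht0 : (0 : ℝ) < t := ht
      simp only [Function.uncurry]
      rw [Real.norm_of_nonneg]
      positivity
  have hswap := integral_integral_swap hint
  have hL : ∫ t in Ioi (0 : ℝ), ∫ s in Ioi x, t ^ (-a) * Real.exp (-(s * (1 + t))) = Real.exp (-x) * J a x := by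
    rw [J, ← integral_const_mul]
    exact setIntegral_congr_fun measurableSet_Ioi fun t ht => inner_s ht
  have hR : ∫ s in Ioi x, ∫ t in Ioi (0 : ℝ), t ^ (-a) * Real.exp (-(s * (1 + t))) =
      Real.Gamma (1 - a) * ∫ s in Ioi x, s ^ (a - 1) * Real.exp (-s) := by
    rw [← integral_const_mul]
    exact setIntegral_congr_fun measurableSet_Ioi fun s hs => inner_t ha1 (lt_of_le_of_lt hx hs)
  rw [hL, hR] at hswap
  rw [← hswap, ← mul_assoc, ← Real.exp_add]
  simp

/-- the value at `x = 0` -/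
theorem J_zero {a : ℝ} (ha : 0 < a) (ha1 : a < 1) : J a 0 = Real.pi / Real.sin (Real.pi * a) := by
  rw [J_eq ha ha1 le_rfl, Real.exp_zero, one_mul, ← Real.Gamma_mul_Gamma_one_sub, mul_comm]
  congr 1
  rw [Real.Gamma_eq_integral ha]
  refine setIntegral_congr_fun measurableSet_Ioi fun s _ => ?_
  exact mul_comm _ _

theorem J_half_zero : J (1 / 2) 0 = Real.pi := by
  rw [J_zero (by norm_num) (by norm_num)]
  have : Real.pi * (1 / 2) = Real.pi / 2 := by ring
  rw [this, Real.sin_pi_div_two, div_one]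

end Pool.Agent.N13.PE
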