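import Pool.Agent.R352.T.Count2
import Pool.Agent.N13.PE.Int

/-!
# Algebraic independence of the numbers `J a x`
-/

set_option autoImplicit false

open MeasureTheory Set

namespace Pool.Agent.N13.PE

open Pool.Agent.R352.E (clF mem_clF subset_clF clF_mono clF_le of_pow indep_of_span exp_rat_mem rat_mem)
open Pool.Agent.R352.T (EA gu EA_one_mem AI_gam AI_generic count_generic trdeg_generic rpow_mem)

lemma J_gu {a x : ℝ} (ha : 0 < a) (ha1 : a < 1) (hx : 0 ≤ x) :
    J a x = Real.exp x * (Real.Gamma (1 - a) * gu a x) := J_eq ha ha1 hx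

lemma gu_mem {a x : ℚ} (ha : 0 < a) (ha1 : a < 1) (hx : 0 ≤ x) {T : Set ℝ} (he : Real.exp 1 ∈ clF T)
    (hG : Real.Gamma (1 - a) ∈ clF T) (h : J a x ∈ clF T) : gu a x ∈ clF T := by
  have ha' : (0 : ℝ) < a := by exact_mod_cast ha
  have ha1' : (a : ℝ) < 1 := by exact_mod_cast ha1
  have hx' : (0 : ℝ) ≤ x := by exact_mod_cast hx
  have h1 := J_gu ha' ha1' hx'
  have h2 : Real.Gamma (1 - a) ≠ 0 := (Real.Gamma_pos_of_pos (by linarith)).ne'
  have h3 : gu a x = J a x / (Real.exp x * Real.Gamma (1 - a)) := by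
    rw [h1]
    have := (Real.exp_pos (x : ℝ)).ne'
    field_simp
  rw [h3]
  exact (clF T).div_mem h ((clF T).mul_mem (exp_rat_mem he x) hG)

lemma Z_mem {a x : ℚ} (ha : 0 < a) (ha1 : a < 1) (hx : 0 < x) {T : Set ℝ} (he : Real.exp 1 ∈ clF T)
    (hG : Real.Gamma a ∈ clF T) (hG' : Real.Gamma (1 - a) ∈ clF T) (h : J a x ∈ clF T) : EA a 1 x ∈ clF T :=
  EA_one_mem ha hx he hG (gu_mem ha ha1 hx.le he hG' h)

section general

variable {r : ℕ} (y : Fin r → ℝ) (A : Set ℚ)

/-- the pairs -/
abbrev PA : Type := {p : ℚ × ℚ // p.1 ∈ A ∧ 0 < p.2}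

lemma AI_A (hA : ∀ a ∈ A, 0 < a ∧ a < 1) :
    AlgebraicIndependent ℚ (fun o : Option (PA A) => o.elim (Real.exp 1) (fun p => EA p.1.1 1 p.1.2)) := by
  let f : Option (PA A) → Option {p : ℚ × ℚ // 0 < p.1 ∧ p.1 < 1 ∧ 0 < p.2} :=
    Option.map fun p => ⟨p.1, (hA _ p.2.1).1, (hA _ p.2.1).2, p.2.2⟩
  have hf : Function.Injective f := by
    refine Option.map_injective ?_
    intro p p' h
    simp only [Subtype.mk.injEq] at h
    exact Subtype.ext h
  have h2 := AI_gam.comp f hf
  convert h2 using 1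
  ext o
  cases o <;> simp [f]

/-- the hypothesis on the gamma values -/
def GH : Prop := ∀ a ∈ A, (0 < a ∧ a < 1) ∧ Real.Gamma a ∈ clF ({Real.exp 1} ∪ range y) ∧
  Real.Gamma (1 - a) ∈ clF ({Real.exp 1} ∪ range y)

/-- the algebraic names -/
def names : Set (Fin r ⊕ (ℚ × ℚ)) :=
  {i | Sum.elim (fun k => y k ∈ clF {Real.exp 1}) (fun p => p.1 ∈ A ∧ 0 < p.2 ∧ J p.1 p.2 ∈ clF {Real.exp 1}) i}

variable {y A}

lemma hZ (h : GH y A) (p : PA A) (T : Set ℝ) (hT : {Real.exp 1} ∪ range y ⊆ clF T) (hR : J p.1.1 p.1.2 ∈ clF T) :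
    EA p.1.1 1 p.1.2 ∈ clF T := by
  obtain ⟨⟨h0, h1⟩, h2, h3⟩ := h _ p.2.1
  exact Z_mem h0 h1 p.2.2 (hT (Or.inl rfl)) (clF_le hT h2) (clF_le hT h3) hR

theorem count (h : GH y A) : (names y A).encard ≤ (r : ℕ∞) := by
  have h1 := count_generic (AI_A A fun a ha => (h a ha).1) (R := fun p : PA A => J p.1.1 p.1.2) y
    (fun p T hT hR => hZ h p T hT hR)
  refine le_trans ?_ h1
  let g : Fin r ⊕ PA A → Fin r ⊕ (ℚ × ℚ) := Sum.map id Subtype.val
  have hg : Function.Injective g := Function.Injective.sumMap Function.injective_id Subtype.val_injective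
  have hsub : names y A ⊆ g '' {i | Sum.elim y (fun p : PA A => J p.1.1 p.1.2) i ∈ clF {Real.exp 1}} := by
    intro i hi
    rcases i with i | p
    · exact ⟨Sum.inl i, hi, rfl⟩
    · exact ⟨Sum.inr ⟨p, hi.1, hi.2.1⟩, hi.2.2, rfl⟩
  exact (encard_le_encard hsub).trans (le_of_eq (hg.encard_image _))

theorem trdeg (h : GH y A) (S : Finset (ℚ × ℚ)) (hS : ∀ p ∈ S, p.1 ∈ A ∧ 0 < p.2) :
    ((S.card + 1 : ℕ) : Cardinal) ≤ Algebra.trdeg ℚ (IntermediateField.adjoin ℚ
      ({Real.exp 1} ∪ range y ∪ (fun p : ℚ × ℚ => J p.1 p.2) '' (S : Set (ℚ × ℚ)))) := by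
  classical
  let f : S → PA A := fun p => ⟨p, hS _ p.2⟩
  have hf : Function.Injective f := by
    intro p q hpq
    exact Subtype.ext (congrArg (fun z : PA A => z.1) hpq)
  have h1 := trdeg_generic (AI_A A fun a ha => (h a ha).1) (R := fun p : PA A => J p.1.1 p.1.2) y
    (fun p T hT hR => hZ h p T hT hR) (Finset.univ.image f)
  rw [Finset.card_image_of_injective _ hf, Finset.card_univ, Fintype.card_coe] at h1
  have e : (fun p : PA A => J p.1.1 p.1.2) '' ((Finset.univ.image f : Finset (PA A)) : Set (PA A)) =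
      (fun p : ℚ × ℚ => J p.1 p.2) '' (S : Set (ℚ × ℚ)) := by
    ext z
    constructor
    · rintro ⟨p, hp, rfl⟩
      rw [Finset.mem_coe, Finset.mem_image] at hp
      obtain ⟨q, -, rfl⟩ := hp
      exact ⟨q, q.2, rfl⟩
    · rintro ⟨p, hp, rfl⟩
      refine ⟨f ⟨p, hp⟩, ?_, rfl⟩
      rw [Finset.mem_coe, Finset.mem_image]
      exact ⟨⟨p, hp⟩, Finset.mem_univ _, rfl⟩
  rwa [e] at h1

end general

/-! ### denominator two -/

lemma half_cast : (((1 / 2 : ℚ) : ℚ) : ℝ) = 1 / 2 := by push_cast; rfl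

lemma Gamma_half_mem {T : Set ℝ} (h : Real.pi ∈ clF T) : Real.Gamma (1 / 2) ∈ clF T := by
  rw [Real.Gamma_one_half_eq]
  exact of_pow (n := 2) (by norm_num) (by rw [Real.sq_sqrt Real.pi_pos.le]; exact h)

lemma half_mem {x : ℚ} (hx : 0 < x) {T : Set ℝ} (he : Real.exp 1 ∈ clF T) (hpi : Real.pi ∈ clF T)
    (h : J (1 / 2) x ∈ clF T) : EA (1 / 2 : ℚ) 1 x ∈ clF T := by
  have hG := Gamma_half_mem hpi
  refine Z_mem (a := 1 / 2) (by norm_num) (by norm_num) hx he ?_ ?_ ?_
  · rw [half_cast]; exact hG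
  · rw [half_cast]
    have : (1 : ℝ) - 1 / 2 = 1 / 2 := by norm_num
    rw [this]; exact hG
  · rw [half_cast]; exact h

/-- `π` from two values: the numbers `e`, `E(x₀)`, `E(x)` -/
lemma AI_half' (S : Finset ℚ) (hS : ∀ x ∈ S, 0 < x) :
    AlgebraicIndependent ℚ (fun o : Option S => o.elim (Real.exp 1) (fun p => EA (1 / 2 : ℚ) 1 (p : ℚ))) := by
  let f : Option S → Option {p : ℚ × ℚ // 0 < p.1 ∧ p.1 < 1 ∧ 0 < p.2} :=
    Option.map fun p => ⟨(1 / 2, p), by norm_num, by norm_num, hS _ p.2⟩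
  have hf : Function.Injective f := by
    refine Option.map_injective ?_
    intro p p' h
    simp only [Subtype.mk.injEq, Prod.mk.injEq, true_and] at h
    exact Subtype.ext h
  have h2 := AI_gam.comp f hf
  convert h2 using 1
  ext o
  cases o <;> simp [f]

/-- one algebraic value: the other ones are algebraically independent -/
theorem AI_exc {x₀ : ℚ} (hx₀ : 0 ≤ x₀) (h0 : J (1 / 2) x₀ ∈ clF {Real.exp 1}) :
    AlgebraicIndependent ℚ (fun o : Option {x : ℚ // 0 ≤ x ∧ x ≠ x₀} =>
      o.elim (Real.exp 1) (fun x => J (1 / 2) (x : ℚ))) := by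
  classical
  refine algebraicIndependent_of_finite_type fun t ht => ?_
  -- the positive `x` which occur in `t`
  let S : Finset ℚ := (ht.toFinset.biUnion fun o => o.elim ∅ (fun x => {(x : ℚ)})).filter (fun x => 0 < x ∧ x ≠ x₀)
  have hSm : ∀ x : {x : ℚ // 0 ≤ x ∧ x ≠ x₀}, some x ∈ t → (x : ℚ) ≠ 0 → (x : ℚ) ∈ S := by
    intro x hx hx0
    refine Finset.mem_filter.2 ⟨Finset.mem_biUnion.2 ⟨some x, ht.mem_toFinset.2 hx, by simp⟩, ?_, x.2.2⟩
    exact lt_of_le_of_ne x.2.1 (Ne.symm hx0)
  have hS : ∀ x ∈ S, 0 < x ∧ x ≠ x₀ := fun x hx => (Finset.mem_filter.1 hx).2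
  rcases hx₀.eq_or_lt with hz | hpos
  · -- `x₀ = 0`
    have hpi : ∀ T : Set ℝ, Real.exp 1 ∈ clF T → Real.pi ∈ clF T := by
      intro T hT
      rw [← hz, Rat.cast_zero, J_half_zero] at h0
      exact clF_le (by rintro _ rfl; exact hT) h0
    have hAI := AI_half' S fun x hx => (hS x hx).1
    have h2 : AlgebraicIndependent ℚ (fun o : Option S => o.elim (Real.exp 1) (fun p => J (1 / 2) (p : ℚ))) :=
      AI_generic hAI fun p T hT hR => half_mem (hS _ p.2).1 hT (hpi T hT) hR
    let f : t → Option S := fun o =>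
      match o with
      | ⟨none, _⟩ => none
      | ⟨some x, hx⟩ => some ⟨x, hSm x hx (fun h => x.2.2 (by rw [h, ← hz]))⟩
    have hf : Function.Injective f := by
      rintro ⟨o, ho⟩ ⟨o', ho'⟩ hoo
      cases o with
      | none =>
        cases o' with
        | none => rfl
        | some x' => exact absurd hoo (by simp [f])
      | some x =>
        cases o' with
        | none => exact absurd hoo (by simp [f])
        | some x' =>
          simp only [f, Option.some.injEq, Subtype.mk.injEq] at hoo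
          have : x = x' := Subtype.ext hoo
          subst this
          rfl
    have h3 := h2.comp f hf
    convert h3 using 1
    ext ⟨o, ho⟩
    cases o with
    | none => rfl
    | some p => simp [f]
  · -- `0 < x₀`
    have hnot : x₀ ∉ S := fun h => (hS x₀ h).2 rfl
    have hAI := AI_half' (insert x₀ S) (by
      intro x hx
      rcases Finset.mem_insert.1 hx with rfl | hx
      · exact hpos
      · exact (hS x hx).1)
    have hnot0 : (0 : ℚ) ∉ S := fun h => lt_irrefl _ (hS 0 h).1
    have h2 : AlgebraicIndependent ℚ (fun o : Option (insert (0 : ℚ) S : Finset ℚ) =>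
        o.elim (Real.exp 1) (fun p => J (1 / 2) (p : ℚ))) := by
      refine indep_of_span hAI (fun o => ?_) ?_
      · set T : Set ℝ := range fun o : Option (insert (0 : ℚ) S : Finset ℚ) =>
          o.elim (Real.exp 1) (fun p => J (1 / 2) ((p : ℚ) : ℝ)) with hT
        have he : Real.exp 1 ∈ clF T := subset_clF _ ⟨none, rfl⟩
        have hpi : Real.pi ∈ clF T := by
          refine subset_clF _ ⟨some ⟨0, Finset.mem_insert_self _ _⟩, ?_⟩
          simp only [Option.elim, Rat.cast_zero]
          exact J_half_zero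
        cases o with
        | none => exact he
        | some p =>
          obtain ⟨p, hp⟩ := p
          rcases Finset.mem_insert.1 hp with rfl | hp
          · exact half_mem hpos he hpi (clF_le (by rintro _ rfl; exact he) h0)
          · exact half_mem (hS p hp).1 he hpi (subset_clF _ ⟨some ⟨p, Finset.mem_insert_of_mem hp⟩, rfl⟩)
      · rw [Fintype.card_option, Fintype.card_option, Fintype.card_coe, Fintype.card_coe,
          Finset.card_insert_of_notMem hnot, Finset.card_insert_of_notMem hnot0]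
    let f : t → Option (insert (0 : ℚ) S : Finset ℚ) := fun o =>
      match o with
      | ⟨none, _⟩ => none
      | ⟨some x, hx⟩ => some ⟨x, by
          by_cases h : (x : ℚ) = 0
          · rw [h]; exact Finset.mem_insert_self _ _
          · exact Finset.mem_insert_of_mem (hSm x hx h)⟩
    have hf : Function.Injective f := by
      rintro ⟨o, ho⟩ ⟨o', ho'⟩ hoo
      cases o with
      | none =>
        cases o' with
        | none => rfl
        | some x' => exact absurd hoo (by simp [f])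
      | some x =>
        cases o' with
        | none => exact absurd hoo (by simp [f])
        | some x' =>
          simp only [f, Option.some.injEq, Subtype.mk.injEq] at hoo
          have : x = x' := Subtype.ext hoo
          subst this
          rfl
    have h3 := h2.comp f hf
    convert h3 using 1
    ext ⟨o, ho⟩
    cases o with
    | none => rfl
    | some p => simp [f]

end Pool.Agent.N13.PE
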